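import Pool.Agent.Helper53.UR.Goals
import Pool.Agent.Helper44.CTG.LN
import Pool.Agent.Helper63.CTG.LBG
import Pool.Agent.Helper53.TE.LCT
import Pool.Agent.Helper27.TE.LSD

/-!
# Project UR (MP_c578c8_lc), packet LBG: the test, the table entry and `bigT` are linear space functions
-/

set_option autoImplicit false

namespace Pool.Agent.Helper43.UR

open Pool.Agent.Helper53.UR
open Pool.Agent.Helper53.CTG
open Pool.Agent.Helper65.LinSpace (dig nrec ifz eq01 le01 lt01 capPow Ctx LS num)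
open Pool.Agent.Helper63.CTG (ls_eqc ls_k ls_m ls_v ls_i ls_T ls_gokK ls_actK ls_valK)
open Pool.Agent.Helper44.CTG (ls_Eb ls_Rb ls_wC ls_ushC ls_getD)

section

variable {γ : Type} [Ctx γ] {b W T v X : γ → ℕ}

theorem ls_apT' {F : γ → ℕ → ℕ} (hF : LS (fun x : γ × ℕ => F x.1 x.2)) (hb : LS b)
    (hW : LS W) (hT : LS T) (hv : LS v) (hX : LS X) :
    LS (fun a => apT (F a) (b a) (W a) (T a) (v a) (X a)) := by
  have h1 : LS (fun a => F a (v a)) :=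
    LS.comp (g := fun x : γ × ℕ => F x.1 x.2) (f := fun a => (a, v a)) hF (LS.prodMk LS.id hv)
  exact LS.ifz hT h1 (LS.ifz (hT.sub (LS.const 1)) (LS.const 1)
    (LS.lt01 (ls_wC Pool.Agent.Helper27.TE.gLSD hb hW hv
      (ls_ushC Pool.Agent.Helper27.TE.gLSD Pool.Agent.Helper53.TE.gLCT hb hW hv hX)) (ls_Rb hb)))

theorem ls_bigT' {F : γ → ℕ → ℕ} {c G w A : γ → ℕ} {D : γ → De}
    (hF : LS (fun x : γ × ℕ => F x.1 x.2)) (hb : LS b) (hc : LS c) (hW : LS W) (hD : LS D)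
    (hG : LS G) (hw : LS w) (hX : LS X) (hA : LS A) :
    LS (fun z => bigT (F z) (b z) (c z) (W z) (D z) (G z) (w z) (X z) (A z)) := by
  have g1 := ls_getD hW (ls_Eb hb) hX (ls_i hD)
  have e1 : LS (fun z => ifz (eq01 (D z).k 5) 1 (eq01 (w z % 2 ^ c z) (A z % 2 ^ c z))) :=
    LS.ifz (ls_eqc (ls_k hD) 5) (LS.const 1)
      (LS.eq01 (LS.modPow (LS.const 2) hw hc) (LS.modPow (LS.const 2) hA hc))
  exact LS.mul (ls_gokK hb (ls_k hD) (ls_m hD) hG) (LS.ifz (ls_actK (ls_k hD)) e1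
    (ls_apT' hF hb hW (ls_T hD) (ls_valK (ls_k hD) hc hA hw) g1))

end

/-- **Packet LBG.** -/
theorem gLBG : Pool.Agent.Helper53.UR.GoalLBG := by
  intro β _ M hM
  have htst : LS (fun x : β × ℕ × ℕ => M.tst x.1 x.2.1 x.2.2) := by
    have h1 : LS (fun x : β × ℕ × ℕ => M.ts x.1 x.2.2) :=
      LS.comp (g := fun x : β × ℕ => M.ts x.1 x.2) (f := fun x : β × ℕ × ℕ => (x.1, x.2.2))
        hM.ts (by fun_prop)
    exact LS.eq01 (LS.lt01 (LS.const 0) h1) (by fun_prop)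
  refine ⟨htst, ?_, ?_⟩
  · have ho : LS (fun x : β × De × ℕ × ℕ => x.1) := by fun_prop
    have hD : LS (fun x : β × De × ℕ × ℕ => x.2.1) := by fun_prop
    have hA : LS (fun x : β × De × ℕ × ℕ => x.2.2.1) := by fun_prop
    have hg : LS (fun x : β × De × ℕ × ℕ => x.2.2.2) := by fun_prop
    have hb : LS (fun x : β × De × ℕ × ℕ => M.b x.1) := LS.comp hM.b ho
    have hc : LS (fun x : β × De × ℕ × ℕ => M.c x.1) := LS.comp hM.c ho
    have t1 : LS (fun x : β × De × ℕ × ℕ => M.t x.1 2 x.2.1.v (x.2.2.1 % 2 ^ M.c x.1) 0 0) :=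
      LS.comp (g := fun x : β × ℕ × ℕ × ℕ × ℕ × ℕ =>
          M.t x.1 x.2.1 x.2.2.1 x.2.2.2.1 x.2.2.2.2.1 x.2.2.2.2.2)
        (f := fun x : β × De × ℕ × ℕ => (x.1, 2, x.2.1.v, x.2.2.1 % 2 ^ M.c x.1, 0, 0)) hM.t
        (LS.prodMk ho (LS.prodMk (LS.const 2) (LS.prodMk (ls_v hD)
          (LS.prodMk (LS.modPow (LS.const 2) hA hc) (LS.prodMk (LS.const 0) (LS.const 0))))))
    have t2 : LS (fun x : β × De × ℕ × ℕ => M.t x.1 x.2.1.m x.2.1.v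
        (x.2.2.2 / 2 ^ (2 * M.b x.1)) (x.2.2.2 / 2 ^ M.b x.1 % 2 ^ M.b x.1)
        (x.2.2.2 % 2 ^ M.b x.1)) :=
      LS.comp (g := fun x : β × ℕ × ℕ × ℕ × ℕ × ℕ =>
          M.t x.1 x.2.1 x.2.2.1 x.2.2.2.1 x.2.2.2.2.1 x.2.2.2.2.2)
        (f := fun x : β × De × ℕ × ℕ => (x.1, x.2.1.m, x.2.1.v, x.2.2.2 / 2 ^ (2 * M.b x.1),
          x.2.2.2 / 2 ^ M.b x.1 % 2 ^ M.b x.1, x.2.2.2 % 2 ^ M.b x.1)) hM.t
        (LS.prodMk ho (LS.prodMk (ls_m hD) (LS.prodMk (ls_v hD)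
          (LS.prodMk (LS.divPow (LS.const 2) hg (LS.mul (LS.const 2) hb))
            (LS.prodMk (LS.modPow (LS.const 2) (LS.divPow (LS.const 2) hg hb) hb)
              (LS.modPow (LS.const 2) hg hb))))))
    exact LS.ifz (ls_k hD) t1 t2
  · have ho : LS (fun x : (β × ℕ) × De × (ℕ × ℕ) × (ℕ × ℕ) => x.1.1) := by fun_prop
    have hr : LS (fun x : (β × ℕ) × De × (ℕ × ℕ) × (ℕ × ℕ) => x.1.2) := by fun_prop
    have hD : LS (fun x : (β × ℕ) × De × (ℕ × ℕ) × (ℕ × ℕ) => x.2.1) := by fun_prop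
    have hG : LS (fun x : (β × ℕ) × De × (ℕ × ℕ) × (ℕ × ℕ) => x.2.2.1.1) := by fun_prop
    have hw : LS (fun x : (β × ℕ) × De × (ℕ × ℕ) × (ℕ × ℕ) => x.2.2.1.2) := by fun_prop
    have hX : LS (fun x : (β × ℕ) × De × (ℕ × ℕ) × (ℕ × ℕ) => x.2.2.2.1) := by fun_prop
    have hA : LS (fun x : (β × ℕ) × De × (ℕ × ℕ) × (ℕ × ℕ) => x.2.2.2.2) := by fun_prop
    have hF : LS (fun x : ((β × ℕ) × De × (ℕ × ℕ) × (ℕ × ℕ)) × ℕ =>
        M.tst x.1.1.1 x.1.1.2 x.2) :=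
      LS.comp (g := fun x : β × ℕ × ℕ => M.tst x.1 x.2.1 x.2.2)
        (f := fun x : ((β × ℕ) × De × (ℕ × ℕ) × (ℕ × ℕ)) × ℕ => (x.1.1.1, x.1.1.2, x.2)) htst
        (by fun_prop)
    exact ls_bigT' (F := fun x : (β × ℕ) × De × (ℕ × ℕ) × (ℕ × ℕ) => M.tst x.1.1 x.1.2) hF
      (LS.comp hM.b ho) (LS.comp hM.c ho) (LS.comp hM.W ho) hD hG hw hX hA

end Pool.Agent.Helper43.UR
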